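import Pool.Agent.Lib_MP_eb4e27_co.Count
import Pool.Agent.Lib_MP_eb4e27_co.AsmMt

set_option autoImplicit false

namespace Pool.Agent.Results.MP_eb4e27_co.PrefixRepeated

open Pool.Agent.Lib_MP_eb4e27_co

/-- For all `n ≥ 1` and `0 ≤ i ≤ n`: there is exactly one polynomial `α` in `i + n` variables which
agrees with the number of monotone triangles with prescribed bottom row on all strictly increasing
integer tuples, and its value at `(1, 2, ..., i, 1, 2, ..., n)` is the number of alternating sign
matrices of size `n`. (Coordinates are indexed by `t : Fin (i + n)`, starting from `0`: the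
coordinate with index `t < i` is `t + 1` and the coordinate with index `t ≥ i` is `t - i + 1`.) -/
theorem result :
    ∀ n i : ℕ, 1 ≤ n → i ≤ n →
      ∃ α : MvPolynomial (Fin (i + n)) ℚ,
        IsMTPolynomial (i + n) α ∧
        (∀ β : MvPolynomial (Fin (i + n)) ℚ, IsMTPolynomial (i + n) β → β = α) ∧
        MvPolynomial.eval
          (fun t : Fin (i + n) => if (t : ℕ) < i then ((t : ℕ) : ℚ) + 1 else ((t : ℕ) : ℚ) - i + 1)
          α = (asmCount n : ℚ) := by
  intro n i _ hi
  obtain ⟨α, hα, -⟩ := exists_mtPoly (i + n)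
  refine ⟨α, hα, fun β hβ => mtPoly_unique hβ hα, ?_⟩
  rw [← mtCount_eq_asmCount n]
  exact main_mt n i hi α hα

end Pool.Agent.Results.MP_eb4e27_co.PrefixRepeated
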